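import Pool.Agent.FRE.Stmts

/-!
# Row PA4 of squad FRE (MP_1fc801_co): from paths of length two to few differences
-/

set_option autoImplicit false

namespace Pool.Agent.FRE.H81

open Finset Classical

/-- the common neighbours of `a` and `a'` -/
noncomputable def cn (P S : Finset ℂ) (a a' : ℂ) : Finset ℂ :=
  P.filter fun b => a + b ∈ S ∧ a' + b ∈ S

theorem cn_comm (P S : Finset ℂ) (a a' : ℂ) : cn P S a a' = cn P S a' a := by
  unfold cn
  exact Finset.filter_congr fun b _ => and_comm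

/-- the elements of `A` for which the pair is bad -/
noncomputable def bs (P S A : Finset ℂ) (δ : ℝ) (a : ℂ) : Finset ℂ :=
  A.filter fun a' => ((cn P S a a').card : ℝ) < δ * P.card

theorem sum_bs (P S A : Finset ℂ) (δ : ℝ) :
    (((A ×ˢ A).filter fun p =>
      ((P.filter fun b => p.1 + b ∈ S ∧ p.2 + b ∈ S).card : ℝ) < δ * P.card).card : ℝ) =
    ∑ a ∈ A, ((bs P S A δ a).card : ℝ) := by
  rw [Finset.card_filter, Finset.sum_product, Nat.cast_sum]
  refine Finset.sum_congr rfl fun a _ => ?_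
  unfold bs cn
  rw [Finset.card_filter]

/-- number of the quadruples for one difference -/
theorem quad (P S A : Finset ℂ) (δ : ℝ) (hδ : 0 < δ) (a e : ℂ)
    (ha : 4 * ((bs P S A δ a).card : ℝ) ≤ A.card) (he : 4 * ((bs P S A δ e).card : ℝ) ≤ A.card) :
    (A.card : ℝ) / 2 * (δ * P.card) ^ 2 ≤
      (((S ×ˢ S) ×ˢ (S ×ˢ S)).filter fun q => q.1.1 - q.1.2 + (q.2.1 - q.2.2) = a - e).card := by
  set M : Finset ℂ := A.filter fun a' => ¬ (((cn P S a a').card : ℝ) < δ * P.card) ∧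
    ¬ (((cn P S e a').card : ℝ) < δ * P.card) with hM
  have hsub : A ⊆ M ∪ (bs P S A δ a ∪ bs P S A δ e) := by
    intro x hx
    by_cases h1 : ((cn P S a x).card : ℝ) < δ * P.card
    · exact Finset.mem_union_right _ (Finset.mem_union_left _ (Finset.mem_filter.mpr ⟨hx, h1⟩))
    · by_cases h2 : ((cn P S e x).card : ℝ) < δ * P.card
      · exact Finset.mem_union_right _ (Finset.mem_union_right _ (Finset.mem_filter.mpr ⟨hx, h2⟩))
      · exact Finset.mem_union_left _ (Finset.mem_filter.mpr ⟨hx, h1, h2⟩)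
  have hc : (A.card : ℝ) ≤ M.card + ((bs P S A δ a).card + (bs P S A δ e).card) := by
    have h1 := (Finset.card_le_card hsub).trans
      ((Finset.card_union_le _ _).trans (Nat.add_le_add_left (Finset.card_union_le _ _) _))
    exact_mod_cast h1
  have hMc : (A.card : ℝ) / 2 ≤ M.card := by linarith
  set T : Finset (Σ _ : ℂ, ℂ × ℂ) := M.sigma fun a' => cn P S a a' ×ˢ cn P S e a' with hT
  have hTc : (A.card : ℝ) / 2 * (δ * P.card) ^ 2 ≤ T.card := by
    have hP0 : 0 ≤ δ * (P.card : ℝ) := mul_nonneg hδ.le (Nat.cast_nonneg _)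
    calc (A.card : ℝ) / 2 * (δ * P.card) ^ 2 ≤ M.card * (δ * P.card) ^ 2 :=
          mul_le_mul_of_nonneg_right hMc (sq_nonneg _)
      _ = ∑ _a' ∈ M, (δ * (P.card : ℝ)) ^ 2 := by rw [Finset.sum_const, nsmul_eq_mul]
      _ ≤ ∑ a' ∈ M, (((cn P S a a').card : ℝ) * (cn P S e a').card) := by
          refine Finset.sum_le_sum fun a' ha' => ?_
          obtain ⟨_, h1, h2⟩ := Finset.mem_filter.mp ha'
          rw [sq]
          exact mul_le_mul (not_lt.mp h1) (not_lt.mp h2) hP0 (Nat.cast_nonneg _)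
      _ = T.card := by
          rw [hT, Finset.card_sigma, Nat.cast_sum]
          refine Finset.sum_congr rfl fun a' _ => ?_
          rw [Finset.card_product, Nat.cast_mul]
  refine hTc.trans ?_
  have hle : T.card ≤
      (((S ×ˢ S) ×ˢ (S ×ˢ S)).filter fun q => q.1.1 - q.1.2 + (q.2.1 - q.2.2) = a - e).card := by
    refine Finset.card_le_card_of_injOn
      (fun t => ((a + t.2.1, t.1 + t.2.1), (t.1 + t.2.2, e + t.2.2))) ?_ ?_
    · intro t ht
      rw [hT] at ht
      obtain ⟨h1, h2⟩ := Finset.mem_sigma.mp ht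
      obtain ⟨h3, h4⟩ := Finset.mem_product.mp h2
      obtain ⟨_, h5, h6⟩ := Finset.mem_filter.mp h3
      obtain ⟨_, h7, h8⟩ := Finset.mem_filter.mp h4
      refine Finset.mem_coe.mpr (Finset.mem_filter.mpr ⟨?_, ?_⟩)
      · exact Finset.mem_product.mpr ⟨Finset.mem_product.mpr ⟨h5, h6⟩,
          Finset.mem_product.mpr ⟨h8, h7⟩⟩
      · show a + t.2.1 - (t.1 + t.2.1) + (t.1 + t.2.2 - (e + t.2.2)) = a - e
        ring
    · rintro ⟨x, b, b'⟩ _ ⟨y, c, c'⟩ _ h
      simp only [Prod.mk.injEq] at h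
      obtain ⟨⟨h1, h2⟩, h3, h4⟩ := h
      have hb : b = c := add_left_cancel h1
      have hb' : b' = c' := add_left_cancel h4
      subst hb
      subst hb'
      have hx : x = y := add_right_cancel h2
      subst hx
      rfl
  exact_mod_cast hle

/-- **PA4** -/
theorem pa4 : Pa4Stmt := by
  intro P S A δ hδ hbad
  rw [sum_bs] at hbad
  set B : Finset ℂ := A.filter fun a => 4 * ((bs P S A δ a).card : ℝ) ≤ A.card with hB
  have hBA : B ⊆ A := Finset.filter_subset _ _
  refine ⟨B, hBA, ?_, ?_⟩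
  · by_cases hA : A.card = 0
    · rw [hA]
      exact Nat.zero_le _
    have hA0 : (0 : ℝ) < A.card := by exact_mod_cast Nat.pos_of_ne_zero hA
    have h2 : ∑ a ∈ A \ B, ((bs P S A δ a).card : ℝ) ≤ ∑ a ∈ A, ((bs P S A δ a).card : ℝ) :=
      Finset.sum_le_sum_of_subset_of_nonneg Finset.sdiff_subset
        (fun _ _ _ => Nat.cast_nonneg _)
    have h3 : ∑ _a ∈ A \ B, ((A.card : ℝ) / 4) ≤ ∑ a ∈ A \ B, ((bs P S A δ a).card : ℝ) := by
      refine Finset.sum_le_sum fun a ha => ?_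
      obtain ⟨h4, h5⟩ := Finset.mem_sdiff.mp ha
      by_contra h6
      exact h5 (Finset.mem_filter.mpr ⟨h4, by linarith [not_le.mp h6]⟩)
    rw [Finset.sum_const, nsmul_eq_mul] at h3
    have h4 : ((A \ B).card : ℝ) * ((A.card : ℝ) / 4) ≤ 1 / 8 * (A.card : ℝ) ^ 2 :=
      h3.trans (h2.trans hbad)
    have h5 : ((A \ B).card : ℝ) ≤ A.card / 2 := by
      by_contra h6
      have h7 := mul_lt_mul_of_pos_right (not_le.mp h6) hA0
      nlinarith
    have h6 : (((A \ B).card + B.card : ℕ) : ℝ) = A.card := by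
      rw [Finset.card_sdiff_add_card_eq_card hBA]
    push_cast at h6
    have h7 : (A.card : ℝ) ≤ 2 * B.card := by linarith
    exact_mod_cast h7
  · set D : Finset ℂ := (B ×ˢ B).image fun p => p.1 - p.2 with hD
    have h1 : ∀ d ∈ D, (A.card : ℝ) / 2 * (δ * P.card) ^ 2 ≤
        (((S ×ˢ S) ×ˢ (S ×ˢ S)).filter fun q => q.1.1 - q.1.2 + (q.2.1 - q.2.2) = d).card := by
      intro d hd
      obtain ⟨p, hp, rfl⟩ := Finset.mem_image.mp hd
      obtain ⟨hp1, hp2⟩ := Finset.mem_product.mp hp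
      exact quad P S A δ hδ p.1 p.2 (Finset.mem_filter.mp hp1).2 (Finset.mem_filter.mp hp2).2
    calc (D.card : ℝ) * ((A.card : ℝ) / 2 * (δ * P.card) ^ 2)
        = ∑ _d ∈ D, ((A.card : ℝ) / 2 * (δ * P.card) ^ 2) := by
          rw [Finset.sum_const, nsmul_eq_mul]
      _ ≤ ∑ d ∈ D, ((((S ×ˢ S) ×ˢ (S ×ˢ S)).filter
            fun q => q.1.1 - q.1.2 + (q.2.1 - q.2.2) = d).card : ℝ) := Finset.sum_le_sum h1
      _ = ((((S ×ˢ S) ×ˢ (S ×ˢ S)).filter
            fun q => q.1.1 - q.1.2 + (q.2.1 - q.2.2) ∈ D).card : ℝ) := by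
          rw [← Nat.cast_sum, Finset.sum_card_fiberwise_eq_card_filter]
      _ ≤ (((S ×ˢ S) ×ˢ (S ×ˢ S)).card : ℝ) := by
          exact_mod_cast Finset.card_filter_le _ _
      _ = (S.card : ℝ) ^ 4 := by
          rw [Finset.card_product, Finset.card_product]
          push_cast
          ring

end Pool.Agent.FRE.H81
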